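import Mathlib

set_option autoImplicit false

/-!
MP_8b22d5_an: the optimal delay `κ*` satisfies `κ* ≤ (3 + π) / 2 < π`.
-/

namespace Pool.Agent.R274.KD

open MeasureTheory Set Filter Topology

/-- `x` is a solution of `x'' + p(t) x(t - τ(t)) = 0`, `t ≥ s`, on `[s - m, ∞)`: `x` and `x' = v` are
absolutely continuous on compact subintervals (they are the integrals of the locally integrable
functions `v` and `a`) and the equation holds for almost every `t ≥ s`. -/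
def IsSol (p τ : ℝ → ℝ) (s m : ℝ) (x : ℝ → ℝ) : Prop :=
  ∃ v a : ℝ → ℝ,
    (∀ b, s - m ≤ b → IntervalIntegrable a volume (s - m) b) ∧
    (∀ t, s - m ≤ t → v t = v (s - m) + ∫ u in (s - m)..t, a u) ∧
    (∀ t, s - m ≤ t → x t = x (s - m) + ∫ u in (s - m)..t, v u) ∧
    ∀ᵐ t, s ≤ t → a t + p t * x (t - τ t) = 0

/-- arbitrarily large zeros -/
def Oscillatory (x : ℝ → ℝ) : Prop := ∀ R : ℝ, ∃ t, R ≤ t ∧ x t = 0

/-- admissible delay bounds: for all measurable `p`, `τ` with `-1 ≤ p ≤ 0`, `τ ≥ 0` essentially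
bounded, and all `s`, `m < κ` where `m` is the essential supremum of `τ` on `[s, ∞)`, every
oscillatory solution tends to `0`. -/
def Admissible (κ : ℝ) : Prop :=
  0 < κ ∧ ∀ (p τ : ℝ → ℝ) (s : ℝ), Measurable p → Measurable τ → (∀ t, -1 ≤ p t ∧ p t ≤ 0) →
    (∀ t, 0 ≤ τ t) → (∃ C, ∀ᵐ t, τ t ≤ C) →
    essSup τ (volume.restrict (Ici s)) < κ →
    ∀ x : ℝ → ℝ, IsSol p τ s (essSup τ (volume.restrict (Ici s))) x → Oscillatory x →
      Tendsto x atTop (𝓝 0)

/-! ### the example -/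

/-- the half period -/
noncomputable def T : ℝ := (3 + Real.pi) / 2

/-- base functions on `[0, T)` -/
noncomputable def x0 (t : ℝ) : ℝ :=
  if t < 1 / 2 then t else if t < 3 / 2 then 1 - (3 / 2 - t) ^ 2 / 2 else Real.cos (t - 3 / 2)
noncomputable def v0 (t : ℝ) : ℝ :=
  if t < 1 / 2 then 1 else if t < 3 / 2 then 3 / 2 - t else -Real.sin (t - 3 / 2)
noncomputable def a0 (t : ℝ) : ℝ :=
  if t < 1 / 2 then 0 else if t < 3 / 2 then -1 else -Real.cos (t - 3 / 2)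
noncomputable def q0 (t : ℝ) : ℝ := if t < 1 / 2 then 0 else 1
noncomputable def τ0 (t : ℝ) : ℝ := if t < 3 / 2 then max 0 (t + Real.pi / 2) else T

/-- the index of the half period -/
noncomputable def idx (t : ℝ) : ℤ := ⌊t / T⌋
noncomputable def rem (t : ℝ) : ℝ := t - idx t * T

noncomputable def xx (t : ℝ) : ℝ := (-1 : ℝ) ^ idx t * x0 (rem t)
noncomputable def vv (t : ℝ) : ℝ := (-1 : ℝ) ^ idx t * v0 (rem t)
noncomputable def aa (t : ℝ) : ℝ := (-1 : ℝ) ^ idx t * a0 (rem t)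
noncomputable def pp (t : ℝ) : ℝ := -q0 (rem t)
noncomputable def ττ (t : ℝ) : ℝ := τ0 (rem t)

/-! ### the pieces -/

/-- KX: `xx` and `vv` are continuous with right derivatives `vv`, `aa`; integral formulas -/
def S_KX : Prop :=
  (∀ s b : ℝ, IntervalIntegrable aa volume s b) ∧
  (∀ s t : ℝ, vv t = vv s + ∫ u in s..t, aa u) ∧
  (∀ s t : ℝ, xx t = xx s + ∫ u in s..t, vv u)

/-- KE: the equation, for all `t` -/
def S_KE : Prop := ∀ t : ℝ, aa t + pp t * xx (t - ττ t) = 0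

/-- KM: measurability and bounds -/
def S_KM : Prop := Measurable pp ∧ Measurable ττ ∧ (∀ t, -1 ≤ pp t ∧ pp t ≤ 0) ∧
  (∀ t, 0 ≤ ττ t) ∧ (∀ t, ττ t ≤ T)

/-- KO: oscillation, no decay -/
def S_KO : Prop := (∀ n : ℤ, xx (n * T) = 0) ∧ (∀ n : ℤ, xx (2 * n * T + 3 / 2) = 1)

/-- KF: the final statement -/
def S_KF : Prop := ∀ κ : ℝ, Admissible κ → κ ≤ (3 + Real.pi) / 2

end Pool.Agent.R274.KD
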