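import Mathlib
import Pool.Agent.R274.KD.Defs

set_option autoImplicit false

/-!
KM: measurability and bounds.
-/

namespace Pool.Agent.R274.KD

open MeasureTheory Set Filter Topology

namespace KMAux

theorem T_pos : 0 < T := by
  unfold T; have := Real.pi_pos; linarith

theorem meas_rem : Measurable rem := by
  have h1 : Measurable (fun t : ℝ => ((idx t : ℤ) : ℝ)) := by
    have h2 : Measurable idx := Int.measurable_floor.comp (measurable_id.div_const T)
    exact (measurable_of_countable (fun n : ℤ => (n : ℝ))).comp h2
  exact measurable_id.sub (h1.mul_const T)

theorem meas_q0 : Measurable q0 :=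
  Measurable.ite measurableSet_Iio measurable_const measurable_const

theorem meas_τ0 : Measurable τ0 :=
  Measurable.ite measurableSet_Iio (measurable_const.max (measurable_id.add_const _))
    measurable_const

end KMAux

open KMAux in
theorem km : S_KM := by
  refine ⟨(meas_q0.comp meas_rem).neg, meas_τ0.comp meas_rem, ?_, ?_, ?_⟩
  · intro t
    unfold pp q0
    split_ifs <;> constructor <;> norm_num
  · intro t
    unfold ττ τ0
    split_ifs
    · exact le_max_left _ _
    · exact T_pos.le
  · intro t
    unfold ττ τ0
    split_ifs with h
    · refine max_le T_pos.le ?_
      unfold T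
      linarith
    · exact le_rfl

end Pool.Agent.R274.KD
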