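import Pool.Agent.R274.KD.Defs

set_option autoImplicit false

namespace Pool.Agent.R274.KD

theorem KO.T_gt : (3 / 2 : ℝ) < T := by
  unfold T
  have := Real.pi_pos
  linarith

theorem KO.T_pos : 0 < T := lt_trans (by norm_num) KO.T_gt

theorem KO.idx_eq (n : ℤ) (r : ℝ) (h0 : 0 ≤ r) (h1 : r < T) : idx (n * T + r) = n := by
  unfold idx
  rw [Int.floor_eq_iff]
  have hT := KO.T_pos
  constructor
  · rw [le_div_iff₀ hT]; linarith
  · rw [div_lt_iff₀ hT]; linarith

theorem ko : S_KO := by
  have hT := KO.T_pos
  constructor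
  · intro n
    have h : idx (n * T) = n := by
      have := KO.idx_eq n 0 le_rfl hT
      rwa [add_zero] at this
    unfold xx rem
    rw [h, sub_self]
    simp [x0]
  · intro n
    have h : idx (2 * n * T + 3 / 2) = 2 * n := by
      have := KO.idx_eq (2 * n) (3 / 2) (by norm_num) KO.T_gt
      push_cast at this
      exact this
    have h2 : rem (2 * n * T + 3 / 2) = 3 / 2 := by
      unfold rem
      rw [h]
      push_cast
      ring
    unfold xx
    rw [h2, h]
    have h3 : ((-1 : ℝ)) ^ (2 * n) = 1 := by
      rw [zpow_mul]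
      norm_num
    rw [h3]
    unfold x0
    norm_num

end Pool.Agent.R274.KD
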