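import Pool.Agent.R274.KD.Defs

set_option autoImplicit false

namespace Pool.Agent.R274.KD

open MeasureTheory Set Filter Topology

namespace KX

theorem T_gt : (3 / 2 : ℝ) < T := by
  unfold T
  have := Real.pi_pos
  linarith

theorem T_pos : 0 < T := lt_trans (by norm_num) T_gt

theorem idx_eq (n : ℤ) (u : ℝ) (h0 : n * T ≤ u) (h1 : u < (n + 1) * T) : idx u = n := by
  unfold idx
  rw [Int.floor_eq_iff]
  have hT := T_pos
  constructor
  · rw [le_div_iff₀ hT]; linarith
  · rw [div_lt_iff₀ hT]; linarith

theorem idx_spec (t : ℝ) : (idx t : ℝ) * T ≤ t ∧ t < (idx t + 1) * T := by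
  have hT := T_pos
  unfold idx
  constructor
  · rw [← le_div_iff₀ hT]; exact Int.floor_le _
  · rw [← div_lt_iff₀ hT]; exact Int.lt_floor_add_one _

/-- the antiperiodic extension -/
noncomputable def ext (f : ℝ → ℝ) (t : ℝ) : ℝ := (-1 : ℝ) ^ idx t * f (rem t)

theorem ext_eq (f : ℝ → ℝ) (n : ℤ) (u : ℝ) (h0 : n * T ≤ u) (h1 : u < (n + 1) * T) :
    ext f u = (-1 : ℝ) ^ n * f (u - n * T) := by
  unfold ext rem
  rw [idx_eq n u h0 h1]

theorem ext_eq' (f : ℝ → ℝ) (hf : f T = - f 0) (n : ℤ) (u : ℝ) (h0 : n * T ≤ u)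
    (h1 : u ≤ (n + 1) * T) : ext f u = (-1 : ℝ) ^ n * f (u - n * T) := by
  rcases h1.lt_or_eq with h | h
  · exact ext_eq f n u h0 h
  · have h2 : ext f u = (-1 : ℝ) ^ (n + 1) * f (u - ((n + 1 : ℤ) : ℝ) * T) := by
      apply ext_eq
      · push_cast; linarith
      · push_cast; nlinarith [T_pos]
    rw [h2]
    have h3 : u - ((n + 1 : ℤ) : ℝ) * T = 0 := by push_cast; linarith
    have h4 : u - n * T = T := by rw [h]; ring
    rw [h3, h4, hf, zpow_add₀ (by norm_num)]
    simp

theorem ext_cont (f : ℝ → ℝ) (hf : f T = - f 0) (hc : Continuous f) : Continuous (ext f) := by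
  rw [continuous_iff_continuousAt]
  intro t
  have hT := T_pos
  have hr : ContinuousWithinAt (ext f) (Ici t) t := by
    obtain ⟨h0, h1⟩ := idx_spec t
    have hg : ContinuousWithinAt (fun u => (-1 : ℝ) ^ idx t * f (u - idx t * T)) (Ici t) t := by
      have : Continuous (fun u => (-1 : ℝ) ^ idx t * f (u - idx t * T)) := by fun_prop
      exact this.continuousWithinAt
    refine hg.congr_of_eventuallyEq ?_ (ext_eq f _ t h0 h1)
    have h2 : Iio ((idx t + 1) * T) ∈ 𝓝[Ici t] t := mem_nhdsWithin_of_mem_nhds (Iio_mem_nhds h1)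
    filter_upwards [h2, self_mem_nhdsWithin] with u h3 h4
    exact ext_eq f _ u (h0.trans h4) h3
  have hl : ContinuousWithinAt (ext f) (Iic t) t := by
    set m : ℤ := ⌈t / T⌉ - 1 with hm
    have h0 : (m : ℝ) * T < t := by
      rw [← lt_div_iff₀ hT]
      have := Int.ceil_lt_add_one (t / T)
      rw [hm]; push_cast; linarith
    have h1 : t ≤ (m + 1) * T := by
      rw [← div_le_iff₀ hT]
      have := Int.le_ceil (t / T)
      rw [hm]; push_cast; linarith
    have hg : ContinuousWithinAt (fun u => (-1 : ℝ) ^ m * f (u - m * T)) (Iic t) t := by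
      have : Continuous (fun u => (-1 : ℝ) ^ m * f (u - m * T)) := by fun_prop
      exact this.continuousWithinAt
    refine hg.congr_of_eventuallyEq ?_ (ext_eq' f hf _ t h0.le h1)
    have h2 : Ioi (m * T) ∈ 𝓝[Iic t] t := mem_nhdsWithin_of_mem_nhds (Ioi_mem_nhds h0)
    filter_upwards [h2, self_mem_nhdsWithin] with u h3 h4
    exact ext_eq' f hf _ u (le_of_lt h3) (le_trans h4 h1)
  have := hl.union hr
  rw [Iic_union_Ici] at this
  exact continuousWithinAt_univ _ _ |>.1 this

theorem ext_deriv (f g : ℝ → ℝ) (hd : ∀ r, HasDerivWithinAt f (g r) (Ioi r) r) (t : ℝ) :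
    HasDerivWithinAt (ext f) (ext g t) (Ioi t) t := by
  obtain ⟨h0, h1⟩ := idx_spec t
  have hg : HasDerivWithinAt (fun u => (-1 : ℝ) ^ idx t * f (u - idx t * T)) (ext g t) (Ioi t) t := by
    have h3 : HasDerivWithinAt (fun u : ℝ => f (u - idx t * T)) (g (t - idx t * T)) (Ioi t) t := by
      have h5 := hd (t - idx t * T)
      have h4 : HasDerivWithinAt (fun u : ℝ => u - idx t * T) 1 (Ioi t) t :=
        (hasDerivWithinAt_id t _).sub_const _
      have h6 := HasDerivWithinAt.comp (h := fun u : ℝ => u - idx t * T) (h₂ := f) t h5 h4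
        (fun u hu => by simpa using hu)
      rw [mul_one] at h6
      exact h6
    have h7 := h3.const_mul ((-1 : ℝ) ^ idx t)
    exact h7
  refine hg.congr_of_eventuallyEq ?_ (ext_eq f _ t h0 h1)
  have h2 : Iio ((idx t + 1) * T) ∈ 𝓝[Ioi t] t := mem_nhdsWithin_of_mem_nhds (Iio_mem_nhds h1)
  filter_upwards [h2, self_mem_nhdsWithin] with u h3 h4
  exact ext_eq f _ u (h0.trans (le_of_lt h4)) h3

theorem x0_cont : Continuous x0 := by
  unfold x0
  refine Continuous.if ?_ continuous_id (Continuous.if ?_ (by fun_prop) (by fun_prop))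
  · intro a ha
    have h : a = 1 / 2 := by
      have := frontier_lt_subset_eq (f := fun x : ℝ => x) (g := fun _ => (1 / 2 : ℝ)) continuous_id continuous_const ha
      exact this
    subst h
    norm_num
  · intro a ha
    have h : a = 3 / 2 := by
      have := frontier_lt_subset_eq (f := fun x : ℝ => x) (g := fun _ => (3 / 2 : ℝ)) continuous_id continuous_const ha
      exact this
    subst h
    norm_num

theorem v0_cont : Continuous v0 := by
  unfold v0
  refine Continuous.if ?_ continuous_const (Continuous.if ?_ (by fun_prop) (by fun_prop))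
  · intro a ha
    have h : a = 1 / 2 := by
      have := frontier_lt_subset_eq (f := fun x : ℝ => x) (g := fun _ => (1 / 2 : ℝ)) continuous_id continuous_const ha
      exact this
    subst h
    norm_num
  · intro a ha
    have h : a = 3 / 2 := by
      have := frontier_lt_subset_eq (f := fun x : ℝ => x) (g := fun _ => (3 / 2 : ℝ)) continuous_id continuous_const ha
      exact this
    subst h
    norm_num

theorem x0_T : x0 T = - x0 0 := by
  have h := T_gt
  have h1 : ¬ T < 1 / 2 := by linarith
  have h2 : ¬ T < 3 / 2 := by linarith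
  have h3 : T - 3 / 2 = Real.pi / 2 := by unfold T; ring
  simp only [x0]
  rw [if_neg h1, if_neg h2, h3, Real.cos_pi_div_two]
  norm_num

theorem v0_T : v0 T = - v0 0 := by
  have h := T_gt
  have h1 : ¬ T < 1 / 2 := by linarith
  have h2 : ¬ T < 3 / 2 := by linarith
  have h3 : T - 3 / 2 = Real.pi / 2 := by unfold T; ring
  simp only [v0]
  rw [if_neg h1, if_neg h2, h3, Real.sin_pi_div_two]
  norm_num

theorem x0_deriv (r : ℝ) : HasDerivWithinAt x0 (v0 r) (Ioi r) r := by
  by_cases h1 : r < 1 / 2
  · have hg : HasDerivWithinAt (fun u : ℝ => u) (v0 r) (Ioi r) r := by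
      simp only [v0, if_pos h1]; exact hasDerivWithinAt_id r _
    refine hg.congr_of_eventuallyEq ?_ (by simp only [x0, if_pos h1])
    filter_upwards [mem_nhdsWithin_of_mem_nhds (Iio_mem_nhds h1)] with u hu
    have hu' : u < 1 / 2 := hu
    simp only [x0, if_pos hu']
  · by_cases h2 : r < 3 / 2
    · have hg : HasDerivWithinAt (fun u : ℝ => 1 - (3 / 2 - u) ^ 2 / 2) (v0 r) (Ioi r) r := by
        simp only [v0, if_neg h1, if_pos h2]
        have h3 : HasDerivAt (fun u : ℝ => 1 - (3 / 2 - u) ^ 2 / 2) (3 / 2 - r) r := by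
          have h4 : HasDerivAt (fun u : ℝ => 3 / 2 - u) (-1) r := by
            simpa using (hasDerivAt_id r).const_sub (3 / 2)
          have h5 := ((h4.pow 2).div_const 2).const_sub 1
          have h6 : HasDerivAt (fun u : ℝ => 1 - (3 / 2 - u) ^ 2 / 2)
              (-(((2 : ℕ) : ℝ) * (3 / 2 - r) ^ (2 - 1) * (-1) / 2)) r := h5
          convert h6 using 1
          norm_num
          ring
        exact h3.hasDerivWithinAt
      refine hg.congr_of_eventuallyEq ?_ (by simp only [x0, if_neg h1, if_pos h2])
      filter_upwards [mem_nhdsWithin_of_mem_nhds (Iio_mem_nhds h2), self_mem_nhdsWithin] with u hu hu2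
      have hu' : u < 3 / 2 := hu
      have hu3 : ¬ u < 1 / 2 := by
        have : r < u := hu2
        linarith
      simp only [x0, if_neg hu3, if_pos hu']
    · have hg : HasDerivWithinAt (fun u : ℝ => Real.cos (u - 3 / 2)) (v0 r) (Ioi r) r := by
        simp only [v0, if_neg h1, if_neg h2]
        have h3 : HasDerivAt (fun u : ℝ => Real.cos (u - 3 / 2)) (-Real.sin (r - 3 / 2)) r := by
          have h4 : HasDerivAt (fun u : ℝ => u - 3 / 2) 1 r := (hasDerivAt_id r).sub_const _
          simpa using h4.cos
        exact h3.hasDerivWithinAt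
      refine hg.congr_of_eventuallyEq ?_ (by simp only [x0, if_neg h1, if_neg h2])
      filter_upwards [self_mem_nhdsWithin] with u hu2
      have hu3 : ¬ u < 1 / 2 := by
        have : r < u := hu2
        linarith
      have hu4 : ¬ u < 3 / 2 := by
        have : r < u := hu2
        linarith
      simp only [x0, if_neg hu3, if_neg hu4]

theorem v0_deriv (r : ℝ) : HasDerivWithinAt v0 (a0 r) (Ioi r) r := by
  by_cases h1 : r < 1 / 2
  · have hg : HasDerivWithinAt (fun _ : ℝ => (1 : ℝ)) (a0 r) (Ioi r) r := by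
      simp only [a0, if_pos h1]; exact hasDerivWithinAt_const _ _ _
    refine hg.congr_of_eventuallyEq ?_ (by simp only [v0, if_pos h1])
    filter_upwards [mem_nhdsWithin_of_mem_nhds (Iio_mem_nhds h1)] with u hu
    have hu' : u < 1 / 2 := hu
    simp only [v0, if_pos hu']
  · by_cases h2 : r < 3 / 2
    · have hg : HasDerivWithinAt (fun u : ℝ => 3 / 2 - u) (a0 r) (Ioi r) r := by
        simp only [a0, if_neg h1, if_pos h2]
        have h4 : HasDerivAt (fun u : ℝ => 3 / 2 - u) (-1) r := by
          simpa using (hasDerivAt_id r).const_sub (3 / 2)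
        exact h4.hasDerivWithinAt
      refine hg.congr_of_eventuallyEq ?_ (by simp only [v0, if_neg h1, if_pos h2])
      filter_upwards [mem_nhdsWithin_of_mem_nhds (Iio_mem_nhds h2), self_mem_nhdsWithin] with u hu hu2
      have hu' : u < 3 / 2 := hu
      have hu3 : ¬ u < 1 / 2 := by
        have : r < u := hu2
        linarith
      simp only [v0, if_neg hu3, if_pos hu']
    · have hg : HasDerivWithinAt (fun u : ℝ => -Real.sin (u - 3 / 2)) (a0 r) (Ioi r) r := by
        simp only [a0, if_neg h1, if_neg h2]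
        have h3 : HasDerivAt (fun u : ℝ => -Real.sin (u - 3 / 2)) (-Real.cos (r - 3 / 2)) r := by
          have h4 : HasDerivAt (fun u : ℝ => u - 3 / 2) 1 r := (hasDerivAt_id r).sub_const _
          have h5 := h4.sin.neg
          rw [mul_one] at h5
          exact h5
        exact h3.hasDerivWithinAt
      refine hg.congr_of_eventuallyEq ?_ (by simp only [v0, if_neg h1, if_neg h2])
      filter_upwards [self_mem_nhdsWithin] with u hu2
      have hu3 : ¬ u < 1 / 2 := by
        have : r < u := hu2
        linarith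
      have hu4 : ¬ u < 3 / 2 := by
        have : r < u := hu2
        linarith
      simp only [v0, if_neg hu3, if_neg hu4]

theorem aa_meas : Measurable aa := by
  have h1 : Measurable idx := Int.measurable_floor.comp (measurable_id.div_const T)
  have h2 : Measurable rem := by
    unfold rem
    exact measurable_id.sub ((measurable_from_top.comp h1 : Measurable fun t => (idx t : ℝ)).mul_const T)
  have h3 : Measurable a0 := by
    unfold a0
    refine Measurable.ite measurableSet_Iio measurable_const (Measurable.ite measurableSet_Iio measurable_const ?_)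
    fun_prop
  have h4 : Measurable fun t => (-1 : ℝ) ^ idx t := by
    have h5 : Measurable (fun n : ℤ => (-1 : ℝ) ^ n) := measurable_from_top
    exact h5.comp h1
  exact h4.mul (h3.comp h2)

theorem aa_bd (t : ℝ) : ‖aa t‖ ≤ 1 := by
  unfold aa
  rw [norm_mul, norm_zpow, norm_neg, norm_one, one_zpow, one_mul]
  unfold a0
  split_ifs
  · simp
  · simp
  · rw [norm_neg]; exact Real.abs_cos_le_one _

theorem aa_int (s b : ℝ) : IntervalIntegrable aa volume s b := by
  have h : IntervalIntegrable (fun _ : ℝ => (1 : ℝ)) volume s b := intervalIntegrable_const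
  refine h.mono_fun aa_meas.aestronglyMeasurable ?_
  filter_upwards with t
  simpa using aa_bd t

end KX

theorem kx : S_KX := by
  have hx : Continuous xx := KX.ext_cont x0 KX.x0_T KX.x0_cont
  have hv : Continuous vv := KX.ext_cont v0 KX.v0_T KX.v0_cont
  refine ⟨KX.aa_int, ?_, ?_⟩
  · intro s t
    have := intervalIntegral.integral_eq_sub_of_hasDeriv_right (f := vv) (f' := aa) (a := s) (b := t)
      hv.continuousOn (fun x _ => KX.ext_deriv v0 a0 KX.v0_deriv x) (KX.aa_int s t)
    rw [this]; ring
  · intro s t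
    have := intervalIntegral.integral_eq_sub_of_hasDeriv_right (f := xx) (f' := vv) (a := s) (b := t)
      hx.continuousOn (fun x _ => KX.ext_deriv x0 v0 KX.x0_deriv x) (hv.intervalIntegrable _ _)
    rw [this]; ring

end Pool.Agent.R274.KD
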