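import Pool.Agent.R274.KD.Defs

set_option autoImplicit false

namespace Pool.Agent.R274.KD

open MeasureTheory Set Filter Topology

namespace MyAux

lemma T_pos : 0 < T := by unfold T; positivity

lemma T_gt : 3 / 2 < T := by unfold T; have := Real.pi_pos; linarith

lemma idx_eq (t : ℝ) (n : ℤ) (h1 : n * T ≤ t) (h2 : t < (n + 1) * T) : idx t = n := by
  unfold idx
  rw [Int.floor_eq_iff]
  have := T_pos
  constructor
  · rw [le_div_iff₀ this]; exact h1
  · rw [div_lt_iff₀ this]; exact h2

lemma rem_nonneg (t : ℝ) : 0 ≤ rem t := by
  unfold rem idx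
  have h := Int.floor_le (t / T)
  have := T_pos
  rw [le_div_iff₀ this] at h
  linarith

lemma rem_lt (t : ℝ) : rem t < T := by
  unfold rem idx
  have h := Int.lt_floor_add_one (t / T)
  have := T_pos
  rw [div_lt_iff₀ this] at h
  linarith

lemma idx_add (r : ℝ) (n : ℤ) (h1 : 0 ≤ r) (h2 : r < T) : idx (n * T + r) = n :=
  idx_eq _ n (by linarith) (by linarith)

lemma rem_add (r : ℝ) (n : ℤ) (h1 : 0 ≤ r) (h2 : r < T) : rem (n * T + r) = r := by
  unfold rem
  rw [idx_add r n h1 h2]
  ring

lemma decomp (t : ℝ) : t = idx t * T + rem t := by unfold rem; ring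

end MyAux

open MyAux

theorem ko : S_KO := by
  constructor
  · intro n
    have h := idx_add 0 n le_rfl T_pos
    have h' := rem_add 0 n le_rfl T_pos
    rw [add_zero] at h h'
    unfold xx
    rw [h, h']
    simp [x0]
  · intro n
    have h := idx_add (3 / 2) (2 * n) (by norm_num) T_gt
    have h' := rem_add (3 / 2) (2 * n) (by norm_num) T_gt
    push_cast at h h'
    unfold xx
    rw [h, h', zpow_mul]
    norm_num [x0]

theorem ke : S_KE := by
  intro t
  set n := idx t with hn
  set r := rem t with hr
  have h0 : 0 ≤ r := rem_nonneg t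
  have h1 : r < T := rem_lt t
  have ht : t = n * T + r := decomp t
  unfold aa pp ττ
  rw [← hn, ← hr]
  have hz : (-1 : ℝ) ^ n = -(-1 : ℝ) ^ (n - 1) := by
    rw [zpow_sub_one₀ (by norm_num)]
    norm_num
  by_cases c1 : r < 1 / 2
  · unfold a0 q0
    rw [if_pos c1, if_pos c1]
    ring
  · by_cases c2 : r < 3 / 2
    · have e1 : t - τ0 r = ((n - 1 : ℤ) : ℝ) * T + 3 / 2 := by
        unfold τ0
        rw [if_pos c2, max_eq_right (by have := Real.pi_pos; linarith), ht]
        push_cast
        unfold T
        ring
      rw [e1]
      have h := idx_add (3 / 2) (n - 1) (by norm_num) T_gt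
      have h' := rem_add (3 / 2) (n - 1) (by norm_num) T_gt
      unfold xx
      rw [h, h', hz]
      unfold a0 q0 x0
      rw [if_neg c1, if_neg c1, if_pos c2, if_neg (by norm_num), if_neg (by norm_num)]
      norm_num
    · have e1 : t - τ0 r = ((n - 1 : ℤ) : ℝ) * T + r := by
        unfold τ0
        rw [if_neg c2]
        conv_lhs => rw [ht]
        push_cast
        ring
      rw [e1]
      have h := idx_add r (n - 1) h0 h1
      have h' := rem_add r (n - 1) h0 h1
      unfold xx
      rw [h, h', hz]
      unfold a0 q0 x0
      rw [if_neg c1, if_neg c1, if_neg c2, if_neg c1, if_neg c2]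
      ring

lemma idx_meas : Measurable idx := by
  unfold idx
  exact Int.measurable_floor.comp (measurable_id.div_const T)

lemma rem_meas : Measurable rem := by
  unfold rem
  refine measurable_id.sub (Measurable.mul_const ?_ T)
  exact (measurable_from_top (f := fun n : ℤ => (n : ℝ))).comp idx_meas

theorem km : S_KM := by
  refine ⟨?_, ?_, ?_, ?_, ?_⟩
  · unfold pp q0
    refine Measurable.neg (Measurable.ite ?_ measurable_const measurable_const)
    exact measurableSet_lt rem_meas measurable_const
  · unfold ττ τ0
    refine Measurable.ite (measurableSet_lt rem_meas measurable_const) ?_ measurable_const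
    exact measurable_const.max (rem_meas.add_const _)
  · intro t
    unfold pp q0
    split_ifs <;> norm_num
  · intro t
    unfold ττ τ0
    split_ifs
    · exact le_max_left _ _
    · exact T_pos.le
  · intro t
    unfold ττ τ0
    split_ifs with h
    · refine max_le T_pos.le ?_
      unfold T
      linarith
    · exact le_rfl

end Pool.Agent.R274.KD
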