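import Pool.Agent.R274.KD.Mine1

set_option autoImplicit false

namespace Pool.Agent.R274.KD

open MeasureTheory Set Filter Topology
open MyAux

namespace MyAux

lemma x0_cont : Continuous x0 := by
  unfold x0
  simp only [← not_le]
  simp only [ite_not]
  refine Continuous.if_le ?_ continuous_id continuous_const continuous_id ?_
  · refine Continuous.if_le ?_ ?_ continuous_const continuous_id ?_
    · fun_prop
    · fun_prop
    · intro t ht
      rw [← ht]; norm_num
  · intro t ht
    rw [← ht]
    rw [if_neg (by norm_num)]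
    norm_num

lemma v0_cont : Continuous v0 := by
  unfold v0
  simp only [← not_le]
  simp only [ite_not]
  refine Continuous.if_le ?_ continuous_const continuous_const continuous_id ?_
  · refine Continuous.if_le ?_ ?_ continuous_const continuous_id ?_
    · fun_prop
    · fun_prop
    · intro t ht
      rw [← ht]; norm_num
  · intro t ht
    rw [← ht]
    rw [if_neg (by norm_num)]
    norm_num

lemma x0_T : x0 T = 0 := by
  have := T_gt
  unfold x0
  rw [if_neg (by linarith), if_neg (by linarith)]
  unfold T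
  rw [show (3 + Real.pi) / 2 - 3 / 2 = Real.pi / 2 by ring, Real.cos_pi_div_two]

lemma v0_T : v0 T = -1 := by
  have := T_gt
  unfold v0
  rw [if_neg (by linarith), if_neg (by linarith)]
  unfold T
  rw [show (3 + Real.pi) / 2 - 3 / 2 = Real.pi / 2 by ring, Real.sin_pi_div_two]

lemma x0_zero : x0 0 = 0 := by simp [x0]
lemma v0_zero : v0 0 = 1 := by simp [v0]

lemma eqOn_gen (f : ℝ → ℝ) (g : ℝ → ℝ) (hg : ∀ t, g t = (-1 : ℝ) ^ idx t * f (rem t))
    (hT : f T = -f 0) (n : ℤ) :
    EqOn g (fun t => (-1 : ℝ) ^ n * f (t - n * T)) (Icc (n * T) ((n + 1) * T)) := by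
  intro t ht
  rcases lt_or_eq_of_le ht.2 with h | h
  · have hi := idx_eq t n ht.1 h
    show g t = _
    rw [hg t]
    unfold rem
    rw [hi]
  · have e : t = ((n + 1 : ℤ) : ℝ) * T + 0 := by push_cast; linarith
    have hi := idx_add 0 (n + 1) le_rfl T_pos
    have hr := rem_add 0 (n + 1) le_rfl T_pos
    show g t = (-1 : ℝ) ^ n * f (t - n * T)
    rw [hg t]
    have e2 : t - n * T = T := by rw [h]; ring
    rw [e2, hT, e, hi, hr, zpow_add_one₀ (by norm_num)]
    ring

lemma cont_gen (f : ℝ → ℝ) (g : ℝ → ℝ) (hg : ∀ t, g t = (-1 : ℝ) ^ idx t * f (rem t))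
    (hf : Continuous f) (hT : f T = -f 0) : Continuous g := by
  have hT0 := T_pos
  have hc : ∀ n : ℤ, ContinuousOn g (Icc (n * T) ((n + 1) * T)) := by
    intro n
    refine ContinuousOn.congr ?_ (eqOn_gen f g hg hT n)
    exact (continuous_const.mul (hf.comp (continuous_id.sub continuous_const))).continuousOn
  rw [continuous_iff_continuousAt]
  intro t
  have h1 := hc (idx t)
  have h2 := hc (idx t - 1)
  have h3 := h2.union_of_isClosed h1 isClosed_Icc isClosed_Icc
  refine h3.continuousAt ?_
  have hr0 := rem_nonneg t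
  have hr1 := rem_lt t
  have hd := decomp t
  have hsub : Ioo ((idx t - 1 : ℝ) * T) ((idx t + 1) * T) ⊆
      Icc (((idx t - 1 : ℤ) : ℝ) * T) ((((idx t - 1 : ℤ) : ℝ) + 1) * T) ∪
        Icc ((idx t : ℝ) * T) ((idx t + 1) * T) := by
    intro s hs
    rcases le_total s (idx t * T) with h | h
    · left
      push_cast
      exact ⟨hs.1.le, by linarith⟩
    · right
      exact ⟨h, hs.2.le⟩
  refine Filter.mem_of_superset (Ioo_mem_nhds ?_ ?_) hsub
  · linarith
  · linarith

lemma deriv_gen (f f' : ℝ → ℝ) (g : ℝ → ℝ) (hg : ∀ t, g t = (-1 : ℝ) ^ idx t * f (rem t))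
    (hf : ∀ r, HasDerivWithinAt f (f' r) (Ioi r) r) (t : ℝ) :
    HasDerivWithinAt g ((-1 : ℝ) ^ idx t * f' (rem t)) (Ioi t) t := by
  have hT0 := T_pos
  have hr0 := rem_nonneg t
  have hr1 := rem_lt t
  have hd := decomp t
  have h1 : HasDerivWithinAt (fun s => f (s - idx t * T)) (f' (t - idx t * T)) (Ioi t) t := by
    have h2 := hf (t - idx t * T)
    have h3 : HasDerivWithinAt (fun s : ℝ => s - idx t * T) 1 (Ioi t) t :=
      ((hasDerivAt_id t).sub_const _).hasDerivWithinAt
    have h4 : MapsTo (fun s : ℝ => s - idx t * T) (Ioi t) (Ioi (t - idx t * T)) := by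
      intro s hs
      simp only [mem_Ioi] at hs ⊢
      linarith
    have := h2.comp t h3 h4
    rw [mul_one] at this
    exact this
  have h5 := h1.const_mul ((-1 : ℝ) ^ idx t)
  have hrem : t - idx t * T = rem t := rfl
  rw [hrem] at h5
  refine h5.congr_of_eventuallyEq ?_ ?_
  · have : Ioo t ((idx t + 1) * T) ∈ 𝓝[>] t := Ioo_mem_nhdsGT (by linarith)
    filter_upwards [this] with s hs
    have hi := idx_eq s (idx t) (by linarith [hs.1]) hs.2
    rw [hg s]
    unfold rem
    rw [hi]
  · rw [hg t]; rfl

lemma x0_deriv (r : ℝ) : HasDerivWithinAt x0 (v0 r) (Ioi r) r := by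
  unfold v0
  split_ifs with h1 h2
  · refine (hasDerivAt_id r).hasDerivWithinAt.congr_of_eventuallyEq ?_ ?_
    · have : Ioo r (1 / 2) ∈ 𝓝[>] r := Ioo_mem_nhdsGT h1
      filter_upwards [this] with s hs
      unfold x0
      rw [if_pos hs.2]; rfl
    · unfold x0
      rw [if_pos h1]; rfl
  · have hd : HasDerivAt (fun t : ℝ => 1 - (3 / 2 - t) ^ 2 / 2) (3 / 2 - r) r := by
      have h : HasDerivAt (fun t : ℝ => (3 / 2 - t)) (-1) r := (hasDerivAt_id r).const_sub _
      have h' := ((h.pow 2).div_const 2).const_sub 1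
      refine HasDerivAt.congr_deriv h' ?_
      norm_num
      ring
    refine hd.hasDerivWithinAt.congr_of_eventuallyEq ?_ ?_
    · have : Ioo r (3 / 2) ∈ 𝓝[>] r := Ioo_mem_nhdsGT h2
      filter_upwards [this] with s hs
      unfold x0
      rw [if_neg (by linarith [hs.1]), if_pos hs.2]
    · unfold x0
      rw [if_neg h1, if_pos h2]
  · have hd : HasDerivAt (fun t : ℝ => Real.cos (t - 3 / 2)) (-Real.sin (r - 3 / 2)) r := by
      have := (Real.hasDerivAt_cos (r - 3 / 2)).comp r ((hasDerivAt_id r).sub_const (3 / 2 : ℝ))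
      rw [mul_one] at this
      exact this
    refine hd.hasDerivWithinAt.congr_of_eventuallyEq ?_ ?_
    · filter_upwards [self_mem_nhdsWithin] with s hs
      have : r < s := hs
      unfold x0
      rw [if_neg (by linarith), if_neg (by linarith)]
    · unfold x0
      rw [if_neg h1, if_neg h2]

lemma v0_deriv (r : ℝ) : HasDerivWithinAt v0 (a0 r) (Ioi r) r := by
  unfold a0
  split_ifs with h1 h2
  · refine (hasDerivAt_const r (1 : ℝ)).hasDerivWithinAt.congr_of_eventuallyEq ?_ ?_
    · have : Ioo r (1 / 2) ∈ 𝓝[>] r := Ioo_mem_nhdsGT h1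
      filter_upwards [this] with s hs
      unfold v0
      rw [if_pos hs.2]
    · unfold v0
      rw [if_pos h1]
  · have hd : HasDerivAt (fun t : ℝ => 3 / 2 - t) (-1) r := (hasDerivAt_id r).const_sub _
    refine hd.hasDerivWithinAt.congr_of_eventuallyEq ?_ ?_
    · have : Ioo r (3 / 2) ∈ 𝓝[>] r := Ioo_mem_nhdsGT h2
      filter_upwards [this] with s hs
      unfold v0
      rw [if_neg (by linarith [hs.1]), if_pos hs.2]
    · unfold v0
      rw [if_neg h1, if_pos h2]
  · have hd : HasDerivAt (fun t : ℝ => -Real.sin (t - 3 / 2)) (-Real.cos (r - 3 / 2)) r := by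
      have := ((Real.hasDerivAt_sin (r - 3 / 2)).comp r
        ((hasDerivAt_id r).sub_const (3 / 2 : ℝ))).neg
      rw [mul_one] at this
      exact this
    refine hd.hasDerivWithinAt.congr_of_eventuallyEq ?_ ?_
    · filter_upwards [self_mem_nhdsWithin] with s hs
      have : r < s := hs
      unfold v0
      rw [if_neg (by linarith), if_neg (by linarith)]
    · unfold v0
      rw [if_neg h1, if_neg h2]

lemma aa_meas : Measurable aa := by
  unfold aa
  refine Measurable.mul ?_ ?_
  · exact (measurable_from_top (f := fun n : ℤ => (-1 : ℝ) ^ n)).comp idx_meas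
  · have : Measurable a0 := by
      unfold a0
      refine Measurable.ite (measurableSet_lt measurable_id measurable_const) measurable_const ?_
      refine Measurable.ite (measurableSet_lt measurable_id measurable_const) measurable_const ?_
      fun_prop
    exact this.comp rem_meas

lemma aa_bound (t : ℝ) : ‖aa t‖ ≤ 1 := by
  unfold aa
  rw [norm_mul]
  have h1 : ‖(-1 : ℝ) ^ idx t‖ = 1 := by simp
  rw [h1, one_mul]
  unfold a0
  split_ifs
  · simp
  · simp
  · rw [norm_neg, Real.norm_eq_abs]
    exact Real.abs_cos_le_one _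

end MyAux

theorem kx : S_KX := by
  have hxc : Continuous xx := cont_gen x0 xx (fun _ => rfl) x0_cont (by rw [x0_T, x0_zero]; ring)
  have hvc : Continuous vv := cont_gen v0 vv (fun _ => rfl) v0_cont (by rw [v0_T, v0_zero])
  have hai : ∀ s b : ℝ, IntervalIntegrable aa volume s b := by
    intro s b
    refine (intervalIntegrable_const (c := (1 : ℝ))).mono_fun aa_meas.aestronglyMeasurable ?_
    exact Filter.Eventually.of_forall fun t => by simpa using aa_bound t
  refine ⟨hai, ?_, ?_⟩
  · intro s t
    have := intervalIntegral.integral_eq_sub_of_hasDeriv_right (a := s) (b := t) (f := vv)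
      (f' := aa) hvc.continuousOn (fun u _ => deriv_gen v0 a0 vv (fun _ => rfl) v0_deriv u) (hai s t)
    rw [this]; ring
  · intro s t
    have := intervalIntegral.integral_eq_sub_of_hasDeriv_right (a := s) (b := t) (f := xx)
      (f' := vv) hxc.continuousOn (fun u _ => deriv_gen x0 v0 xx (fun _ => rfl) x0_deriv u)
      (hvc.intervalIntegrable s t)
    rw [this]; ring

end Pool.Agent.R274.KD
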