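import Pool.Agent.R274.KD.Defs

set_option autoImplicit false

namespace Pool.Agent.R274.KD

open MeasureTheory Set Filter Topology

theorem kf' (h1 : S_KX) (h2 : S_KE) (h3 : S_KM) (h4 : S_KO) : S_KF := by
  intro κ hκ
  by_contra hlt
  push Not at hlt
  have hT : T < κ := hlt
  obtain ⟨m1, m2, m3, m4, m5⟩ := h3
  have hTpos : 0 < T := by unfold T; positivity
  have hess : essSup ττ (volume.restrict (Ici 0)) ≤ T := by
    refine essSup_le_of_ae_le T (Filter.Eventually.of_forall m5) ?_
    exact ⟨0, by
      intro b hb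
      rw [Filter.eventually_map] at hb
      have hne : (ae (volume.restrict (Ici (0:ℝ)))).NeBot := by
        rw [ae_neBot]
        intro h0
        have := Measure.restrict_eq_zero.1 h0
        simp at this
      obtain ⟨t, ht⟩ := hb.exists
      exact (m4 t).trans ht⟩
  have hlim := hκ.2 pp ττ 0 m1 m2 m3 m4 ⟨T, Filter.Eventually.of_forall m5⟩
    (lt_of_le_of_lt hess hT) xx ?_ ?_
  · have hseq : Tendsto (fun n : ℕ => 2 * (n : ℝ) * T + 3 / 2) atTop atTop := by
      refine Filter.tendsto_atTop_add_const_right _ _ ?_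
      refine Filter.Tendsto.atTop_mul_const hTpos ?_
      exact Filter.Tendsto.const_mul_atTop (by norm_num) tendsto_natCast_atTop_atTop
    have h := hlim.comp hseq
    have h' : (xx ∘ fun n : ℕ => 2 * (n : ℝ) * T + 3 / 2) = fun _ => 1 := by
      funext n
      have := h4.2 (n : ℤ)
      simpa using this
    rw [h'] at h
    have := tendsto_nhds_unique h tendsto_const_nhds
    norm_num at this
  · refine ⟨vv, aa, fun b _ => h1.1 _ b, fun t _ => h1.2.1 _ t, fun t _ => h1.2.2 _ t, ?_⟩
    exact Filter.Eventually.of_forall fun t _ => h2 t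
  · intro R
    obtain ⟨n, hn⟩ := exists_nat_gt (R / T)
    refine ⟨(n : ℤ) * T, ?_, h4.1 n⟩
    rw [div_lt_iff₀ hTpos] at hn
    push_cast
    exact hn.le

end Pool.Agent.R274.KD
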